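import Pool.Agent.H24.SCG2.Stmts5

/-!
# SCG2, module FINP: the final theorem for `PSL(3,F)`
-/

set_option autoImplicit false

namespace Pool.Agent.H67.SCG2

open Pool.SCG Matrix

theorem indAut_conj {F : Type} [Field F] (m : SL3 F) :
    indAut F (MulAut.conj m) = MulAut.conj (QuotientGroup.mk m : PSL3 F) := by
  ext x : 1
  induction x using QuotientGroup.induction_on with
  | H g => rfl

theorem inn_map (F : Type) [Field F] : (Inn F).map (indAut F) = InnP F := by
  ext y
  constructor
  · rintro ⟨_, ⟨m, rfl⟩, rfl⟩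
    exact ⟨QuotientGroup.mk m, (indAut_conj m).symm⟩
  · rintro ⟨x, rfl⟩
    induction x using QuotientGroup.induction_on with
    | H g => exact ⟨MulAut.conj g, ⟨g, rfl⟩, indAut_conj g⟩

theorem graphExtC_map {F : Type} [Field F] (P : GL (Fin 3) F) :
    (GraphExtC P).map (indAut F) =
      (GraphP F).map (MulAut.conj (indAut F (diagAut P))).toMonoidHom := by
  unfold GraphExtC GraphP
  rw [Subgroup.map_map, Subgroup.map_map]
  congr 1
  ext α : 1
  simp [MulAut.conj_apply]

/-- the admissible groups correspond to each other -/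
theorem adm_map_iff {F : Type} [Field F] (hinj : Function.Injective (indAut F))
    (G : Subgroup (MulAut (SL3 F))) :
    Adm G ↔ (G.map (indAut F) = DiagP F ∨ ∃ P : GL (Fin 3) F, G.map (indAut F) =
      (GraphP F).map (MulAut.conj (indAut F (diagAut P))).toMonoidHom) := by
  have hm := Subgroup.map_injective hinj
  unfold Adm
  constructor
  · rintro (h | ⟨P, h⟩)
    · left
      rw [h]
      rfl
    · right
      exact ⟨P, by rw [h, graphExtC_map]⟩
  · rintro (h | ⟨P, h⟩)
    · left
      exact hm h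
    · right
      refine ⟨P, hm ?_⟩
      rw [h, graphExtC_map]

/-- FINP: the final theorem for `PSL(3,F)`. -/
theorem finp_thm (hFINAL : Pool.SCG.FINALStmt) (hPSI : Pool.SCG.PSIStmt)
    (hTRN : Pool.SCG.TRNStmt) : Pool.SCG.FINPStmt := by
  intro F _ _ hodd hsq
  obtain ⟨h1, h2⟩ := hFINAL F hodd hsq
  have hinj := hPSI F
  have htr : ∀ (G : Subgroup (MulAut (SL3 F))) (r : ℕ),
      HasStringC (G.map (indAut F)) r ↔ HasStringC G r :=
    fun G r => hTRN _ _ (indAut F) hinj G r
  refine ⟨?_, ?_⟩
  · intro G hInn hAut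
    have hG : (G.comap (indAut F)).map (indAut F) = G := by
      apply Subgroup.map_comap_eq_self
      intro x hx
      obtain ⟨y, -, hy⟩ := hAut hx
      exact ⟨y, hy⟩
    have hi : Inn F ≤ G.comap (indAut F) := by
      rw [← Subgroup.map_le_iff_le_comap, inn_map]
      exact hInn
    have ha : G.comap (indAut F) ≤ AutG F := by
      intro x hx
      obtain ⟨y, hy, hyx⟩ := hAut hx
      rw [← hinj hyx]
      exact hy
    have h3 := h1 _ hi ha
    rw [adm_map_iff hinj, hG] at h3
    rw [← h3]
    constructor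
    · rintro ⟨r, hr⟩
      exact ⟨r, by rw [← htr, hG]; exact hr⟩
    · rintro ⟨r, hr⟩
      exact ⟨r, by rw [← hG, htr]; exact hr⟩
  · intro G hG
    have key : ∃ G' : Subgroup (MulAut (SL3 F)), G'.map (indAut F) = G := by
      rcases hG with h | ⟨P, h⟩
      · exact ⟨DiagExt F, h.symm⟩
      · exact ⟨GraphExtC P, by rw [graphExtC_map, h]⟩
    obtain ⟨G', rfl⟩ := key
    have hadm := (adm_map_iff hinj G').2 hG
    obtain ⟨h3, h4, h5⟩ := h2 G' hadm
    refine ⟨?_, Subgroup.map_mono h4, ?_, ?_⟩
    · rw [← inn_map]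
      exact Subgroup.map_mono h3
    · exact (htr G' 4).2 h5.1
    · intro r hr
      exact h5.2 ((htr G' r).1 hr)

end Pool.Agent.H67.SCG2
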