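import Pool.Agent.H67.SCG2.UPQ

/-!
# SCG2, module FINQ: the final theorem in characteristic three
-/

set_option autoImplicit false

namespace Pool.Agent.H67.SCG2

open Pool.SCG Matrix

theorem inn_le_graphExt (F : Type) [Field F] : Inn F ≤ GraphExt F := by
  rintro _ ⟨m, rfl⟩
  exact Subgroup.subset_closure (Or.inl ⟨m, rfl⟩)

theorem graphExt_le_autG (F : Type) [Field F] : GraphExt F ≤ AutG F := by
  apply Subgroup.closure_mono
  rintro x (hx | hx)
  · exact Or.inl (Or.inl (Or.inl hx))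
  · exact Or.inr hx

/-- FINQ: the final theorem in characteristic three. -/
theorem finq_thm (hUPQ : Pool.SCG.UPQStmt) (hEXQ : Pool.SCG.EXQStmt)
    (hDGT : Pool.SCG.DGTStmt) : Pool.SCG.FINQStmt := by
  intro F _ _ hodd
  obtain ⟨-, -, hAdm⟩ := hDGT F (cube_surj hodd.1)
  refine ⟨?_, ?_⟩
  · intro G hInn hAut
    constructor
    · rintro ⟨r, hr⟩
      exact (hAdm G).2 (hUPQ F hodd G r hInn hAut hr).1
    · intro h
      rw [(hAdm G).1 h]
      exact ⟨4, hEXQ F hodd⟩
  · intro G hG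
    rw [(hAdm G).1 hG]
    refine ⟨inn_le_graphExt F, graphExt_le_autG F, hEXQ F hodd, ?_⟩
    intro r hr
    exact (hUPQ F hodd (GraphExt F) r (inn_le_graphExt F) (graphExt_le_autG F) hr).2

end Pool.Agent.H67.SCG2
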