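import Pool.Agent.H24.SCG2.Stmts3
import Pool.Agent.H43.SCG.ST4

/-!
# ST4B: the criterion for rank four, second form
-/

namespace Pool.Agent.H67.SCG2

open Pool.SCG

section aux

variable {G : Type} [Group G]

/-- the involution `b` inverts the powers of `b * c` -/
theorem inv_pow_bc {b c : G} (hb : b * b = 1) (hc : c * c = 1) (k : ℤ) :
    (b * c) ^ k * b = b * (b * c) ^ (-k) := by
  have hbi : b⁻¹ = b := inv_eq_of_mul_eq_one_right hb
  have hci : c⁻¹ = c := inv_eq_of_mul_eq_one_right hc
  have h1 : SemiconjBy b (b * c) (b * c)⁻¹ := by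
    unfold SemiconjBy
    rw [mul_inv_rev, hbi, hci, ← mul_assoc, hb, one_mul, mul_assoc, hb, mul_one]
  have h2 := h1.zpow_right (-k)
  unfold SemiconjBy at h2
  rw [inv_zpow, zpow_neg, inv_inv] at h2
  rw [zpow_neg]
  exact h2.symm

/-- elements of the dihedral group generated by `b` and `c` -/
theorem mem_cl_bc {b c x : G} (hb : b * b = 1) (hc : c * c = 1)
    (h : x ∈ Subgroup.closure ({b, c} : Set G)) :
    ∃ k : ℤ, x = (b * c) ^ k ∨ x = b * (b * c) ^ k := by
  induction h using Subgroup.closure_induction with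
  | mem y hy =>
    simp only [Set.mem_insert_iff, Set.mem_singleton_iff] at hy
    rcases hy with rfl | rfl
    · exact ⟨0, Or.inr (by simp)⟩
    · exact ⟨1, Or.inr (by rw [zpow_one, ← mul_assoc, hb, one_mul])⟩
  | one => exact ⟨0, Or.inl (by simp)⟩
  | mul y z _ _ hy hz =>
    obtain ⟨i, hi⟩ := hy
    obtain ⟨j, hj⟩ := hz
    rcases hi with rfl | rfl <;> rcases hj with rfl | rfl
    · exact ⟨i + j, Or.inl (by rw [zpow_add])⟩
    · exact ⟨-i + j, Or.inr (by rw [← mul_assoc, inv_pow_bc hb hc, mul_assoc, zpow_add])⟩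
    · exact ⟨i + j, Or.inr (by rw [mul_assoc, zpow_add])⟩
    · refine ⟨-i + j, Or.inl ?_⟩
      rw [mul_assoc, ← mul_assoc ((b * c) ^ i) b, inv_pow_bc hb hc, mul_assoc, ← mul_assoc b b,
        hb, one_mul, zpow_add]
  | inv y _ hy =>
    obtain ⟨i, hi⟩ := hy
    rcases hi with rfl | rfl
    · exact ⟨-i, Or.inl (by rw [zpow_neg])⟩
    · refine ⟨i, Or.inr ?_⟩
      have hbi : b⁻¹ = b := inv_eq_of_mul_eq_one_right hb
      rw [mul_inv_rev, hbi, ← zpow_neg, inv_pow_bc hb hc, neg_neg]

/-- elements of a generated group commute with `d` when the generators do -/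
theorem comm_cl {d x : G} {S : Set G} (hS : ∀ s ∈ S, s * d = d * s)
    (h : x ∈ Subgroup.closure S) : x * d = d * x := by
  have h1 : Subgroup.closure S ≤ Subgroup.centralizer {d} := by
    rw [Subgroup.closure_le]
    intro s hs
    rw [SetLike.mem_coe, Subgroup.mem_centralizer_iff]
    intro t ht
    rw [Set.mem_singleton_iff] at ht
    subst ht
    exact (hS s hs).symm
  have h2 := h1 h
  rw [Subgroup.mem_centralizer_iff] at h2
  exact (h2 d rfl).symm

/-- the hypothesis for all integers -/
theorem zpow_comm {r d : G} (h : ∀ k : ℕ, r ^ k * d = d * r ^ k → r ^ k = 1) (k : ℤ)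
    (hk : r ^ k * d = d * r ^ k) : r ^ k = 1 := by
  rcases Int.eq_nat_or_neg k with ⟨n, rfl | rfl⟩
  · rw [zpow_natCast] at hk ⊢
    exact h n hk
  · rw [zpow_neg, zpow_natCast] at hk ⊢
    have h1 : Commute (r ^ n)⁻¹ d := hk
    rw [h n (Commute.inv_left_iff.mp h1), inv_one]

end aux

/-- **ST4B** -/
theorem st4b_thm : ST4BStmt := by
  intro G _ a b c d ha1 hb1 hc1 hd1 ha hb hc hd hac had hbd hab hbc hcd h1 h2 h3
  have hcab : ∀ s ∈ ({a, b} : Set G), s * d = d * s := by
    intro s hs
    simp only [Set.mem_insert_iff, Set.mem_singleton_iff] at hs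
    rcases hs with rfl | rfl
    · exact had
    · exact hbd
  have hccd : ∀ s ∈ ({c, d} : Set G), s * a = a * s := by
    intro s hs
    simp only [Set.mem_insert_iff, Set.mem_singleton_iff] at hs
    rcases hs with rfl | rfl
    · exact hac.symm
    · exact had.symm
  refine Pool.Agent.H43.SCG.st4_thm G a b c d ha1 hb1 hc1 hd1 ha hb hc hd hac had hbd hab hbc hcd
    ?_ ?_ h3
  · intro x hx1 hx2
    obtain ⟨k, hk | hk⟩ := mem_cl_bc hb hc hx2
    · have h4 : (b * c) ^ k = 1 := zpow_comm h1 k (by rw [← hk]; exact comm_cl hcab hx1)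
      rw [hk, h4]
      exact Subgroup.one_mem _
    · have h4 : (b * c) ^ k = b * x := by rw [hk, ← mul_assoc, hb, one_mul]
      have h5 : b * x ∈ Subgroup.closure ({a, b} : Set G) :=
        Subgroup.mul_mem _ (Subgroup.subset_closure (by simp)) hx1
      have h6 : (b * c) ^ k = 1 := zpow_comm h1 k (by rw [h4]; exact comm_cl hcab h5)
      rw [hk, h6, mul_one]
      exact Subgroup.subset_closure (by simp)
  · intro x hx1 hx2
    obtain ⟨k, hk | hk⟩ := mem_cl_bc hb hc hx1
    · have h4 : (b * c) ^ k = 1 := zpow_comm h2 k (by rw [← hk]; exact comm_cl hccd hx2)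
      rw [hk, h4]
      exact Subgroup.one_mem _
    · have h4 : c * x = (b * c) ^ (k - 1) := by
        have h7 : x = c * (b * c) ^ (k - 1) := by
          have h8 : c = b * (b * c) := by rw [← mul_assoc, hb, one_mul]
          have h9 : c * (b * c) ^ (k - 1) = b * (b * c) * (b * c) ^ (k - 1) := by rw [← h8]
          rw [h9, mul_assoc, ← zpow_one_add, add_sub_cancel]
          exact hk
        rw [h7, ← mul_assoc, hc, one_mul]
      have h5 : c * x ∈ Subgroup.closure ({c, d} : Set G) :=
        Subgroup.mul_mem _ (Subgroup.subset_closure (by simp)) hx2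
      have h6 : (b * c) ^ (k - 1) = 1 :=
        zpow_comm h2 (k - 1) (by rw [← h4]; exact comm_cl hccd h5)
      have h7 : x = c := by
        have h8 : c * x = 1 := by rw [h4, h6]
        calc x = c * (c * x) := by rw [← mul_assoc, hc, one_mul]
          _ = c := by rw [h8, mul_one]
      rw [h7]
      exact Subgroup.subset_closure (by simp)

end Pool.Agent.H67.SCG2
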